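import Mathlib
import Pool.Agent.Y298.CA.Stm
import Pool.Agent.Y298.CD.Hit
import Pool.Agent.Y298.SH.Op
import Pool.Agent.Y298.SH.Harn

set_option autoImplicit false

/-!
# Univalent inverse branches along orbits away from the critical point
-/

open Set Filter Metric MeasureTheory

namespace Pool.Agent.Y925.CA.Br

open Pool.Agent.TH279.MD Pool.Agent.Y298.SH Pool.Agent.Y298.SH.CD Pool.Agent.Y298.CA
open Pool.Agent.Y298.SH.CE (MG RR)
open Pool.Agent.W746.LD (Univ KC exists_KC)

/-- the inverse branch -/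
theorem branch {C0 c0 θ τ A : ℝ} (K : KC C0 c0) (G : MG C0 c0 θ τ A) {d : ℕ} {c y : ℂ} {R δ : ℝ}
    {n : ℕ} (hd : 2 ≤ d) (hR : 0 < R) (hδ : 0 < δ) (hP : ∀ j, 0 < Pd d c j)
    (hno : ∀ j, zz d c j ∈ ball ((f d c)^[n] y) (2 * R) → A * θ ^ j / Pd d c j * (2 * R) ≤ δ ^ d)
    (haway : ∀ j < n, δ < ‖(f d c)^[j] y‖) : ∀ m ≤ n, ∃ g : ℂ → ℂ,
      DifferentiableOn ℂ g (ball ((f d c)^[n] y) (RR R τ m)) ∧
      (∀ x ∈ ball ((f d c)^[n] y) (RR R τ m), (f d c)^[m] (g x) = x) ∧
      g ((f d c)^[n] y) = (f d c)^[n - m] y := by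
  set w : ℂ := (f d c)^[n] y with hw
  intro m
  induction m with
  | zero =>
    intro _
    exact ⟨fun x => x, differentiableOn_id, fun x _ => rfl, rfl⟩
  | succ m ih =>
    intro hm
    obtain ⟨g, hg, hgm, hgw⟩ := ih (by omega)
    set z : ℂ := (f d c)^[n - (m + 1)] y with hz
    have hzw : z ^ d + c = g w := by
      have h1 : f d c z = g w := by
        rw [hz, ← Function.iterate_succ_apply' (f d c), hgw]
        congr 2
        omega
      exact h1
    have hzδ : δ < ‖z‖ := haway _ (by omega)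
    have hzd : δ ^ d < ‖g w - c‖ := by
      rw [← hzw, add_sub_cancel_right, norm_pow]
      exact pow_lt_pow_left₀ hzδ hδ.le (by omega)
    have homit : ∀ x ∈ ball w (RR R τ (m + 1)), g x ≠ c := by
      intro x hx hgx
      have hxz : x = zz d c m := by
        have h1 := hgm x (G.RR_ball hR m w hx)
        rw [hgx] at h1
        exact h1.symm
      have H : HitAt d c w R τ m g := ⟨hg, hgm, by rwa [← hxz], by rwa [← hxz]⟩
      have hw1 : w ∈ ball w (RR R τ (m + 1)) := mem_ball_self (G.RR_pos hR _)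
      have h5 := G.upper K hR H.univ hw1 H.mem
      rw [H.val] at h5
      have h6 := H.deriv_val G hR
      have hPj := hP m
      have h7 : ‖deriv g (zz d c m)‖ = 1 / Pd d c m := by
        rw [eq_div_iff hPj.ne']
        linarith
      have hzm : zz d c m ∈ ball w (2 * R) := ball_subset_ball (G.RR_le hR _) H.mem
      have h8 := hno m hzm
      rw [mem_ball, dist_eq_norm] at hzm
      have hQ := QQ_pos G m
      rw [h7] at h5
      have h9 : A * θ ^ m * (1 / Pd d c m) * ‖w - zz d c m‖ ≤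
          A * θ ^ m / Pd d c m * (2 * R) := by
        rw [mul_one_div, norm_sub_rev]
        have : 0 ≤ A * θ ^ m / Pd d c m := div_nonneg (by linarith) hPj.le
        exact mul_le_mul_of_nonneg_left hzm.le this
      linarith
    have hg' : DifferentiableOn ℂ g (ball w (RR R τ (m + 1))) := hg.mono (G.RR_ball hR m w)
    obtain ⟨h, hh1, hh2, hh3⟩ := exists_root_ball hd (G.RR_pos hR (m + 1)) (hg'.sub_const c)
      (fun x hx => sub_ne_zero.mpr (homit x hx))
    have hww : w ∈ ball w (RR R τ (m + 1)) := mem_ball_self (G.RR_pos hR _)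
    have hhw : h w ^ d = z ^ d := by
      rw [hh2 w hww, ← hzw]
      ring
    have hζ : (z / h w) ^ d = 1 := by
      rw [div_pow, hhw]
      have h1 : z ^ d ≠ 0 := by
        rw [← hhw]
        exact pow_ne_zero d (hh3 w hww)
      exact div_self h1
    refine ⟨fun x => z / h w * h x, hh1.const_mul _, fun x hx => ?_, ?_⟩
    · have h1 : f d c (z / h w * h x) = g x := by
        unfold f
        rw [mul_pow, hζ, one_mul, hh2 x hx]
        ring
      show (f d c)^[m + 1] (z / h w * h x) = x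
      rw [Function.iterate_succ_apply, h1]
      exact hgm x (G.RR_ball hR m w hx)
    · show z / h w * h w = z
      exact div_mul_cancel₀ _ (hh3 w hww)

/-- distortion by the Cauchy estimates -/
theorem cauchy2 {F : ℂ → ℂ} (hF : Differentiable ℂ F) {y w : ℂ} {R ρ : ℝ} (hR : 0 < R)
    (hρ : 0 < ρ) (hb : ∀ v ∈ ball y ρ, ‖F v - w‖ ≤ R) {y' : ℂ} (hy' : ‖y' - y‖ ≤ ρ / 4) :
    ‖deriv F y' - deriv F y‖ ≤ 16 * R / ρ ^ 2 * ‖y' - y‖ := by
  have h1 : ∀ v, ‖v - y‖ ≤ ρ / 2 → ‖deriv F v‖ ≤ 4 * R / ρ := by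
    intro v hv
    have h2 := Complex.norm_deriv_le_of_forall_mem_sphere_norm_le (c := v) (R := ρ / 4) (C := R)
      (f := fun x => F x - w) (by positivity) (hF.sub_const w).diffContOnCl (fun x hx => by
        apply hb
        rw [mem_sphere, dist_eq_norm] at hx
        rw [mem_ball, dist_eq_norm]
        calc ‖x - y‖ = ‖(x - v) + (v - y)‖ := by congr 1; ring
          _ ≤ ‖x - v‖ + ‖v - y‖ := norm_add_le _ _
          _ < ρ := by linarith)
    rw [deriv_sub_const] at h2
    calc ‖deriv F v‖ ≤ R / (ρ / 4) := h2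
      _ = _ := by field_simp
  have hF' : Differentiable ℂ (deriv F) := by
    intro v
    exact (hF.analyticAt v).deriv.differentiableAt
  have h3 : ∀ v, ‖v - y‖ ≤ ρ / 4 → ‖deriv (deriv F) v‖ ≤ 16 * R / ρ ^ 2 := by
    intro v hv
    have h2 := Complex.norm_deriv_le_of_forall_mem_sphere_norm_le (c := v) (R := ρ / 4)
      (C := 4 * R / ρ) (f := deriv F) (by positivity) hF'.diffContOnCl (fun x hx => by
        apply h1
        rw [mem_sphere, dist_eq_norm] at hx
        calc ‖x - y‖ = ‖(x - v) + (v - y)‖ := by congr 1; ring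
          _ ≤ ‖x - v‖ + ‖v - y‖ := norm_add_le _ _
          _ ≤ ρ / 2 := by linarith)
    calc ‖deriv (deriv F) v‖ ≤ 4 * R / ρ / (ρ / 4) := h2
      _ = _ := by field_simp; norm_num
  refine (convex_closedBall y (ρ / 4)).norm_image_sub_le_of_norm_deriv_le (𝕜 := ℂ)
    (f := deriv F) (fun v _ => hF' v) (fun v hv => ?_)
    (mem_closedBall_self (by positivity)) ?_
  · rw [mem_closedBall, dist_eq_norm] at hv
    exact h3 v hv
  · rw [mem_closedBall, dist_eq_norm]
    exact hy'

theorem br : S_BR := by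
  intro C0 c0 K
  have hC := K.one_le
  have hc := K.pos
  have hc4 := K.le
  refine ⟨512 / c0 ^ 2 + 2 * C0 + 8, by have : 0 < 512 / c0 ^ 2 := by positivity
                                        linarith, ?_⟩
  intro θ τ A G d c y R δ n hd hR hδ hP hno haway
  set K₁ : ℝ := 512 / c0 ^ 2 + 2 * C0 + 8 with hK₁
  have hK1a : 512 / c0 ^ 2 ≤ K₁ := by rw [hK₁]; linarith
  have hK1b : 2 * C0 ≤ K₁ := by
    have : 0 < 512 / c0 ^ 2 := by positivity
    rw [hK₁]; linarith
  have hK1c : 8 ≤ K₁ := by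
    have : 0 < 512 / c0 ^ 2 := by positivity
    rw [hK₁]; linarith
  obtain ⟨g, hg0, hgn0, hgw⟩ := branch K G hd hR hδ hP hno haway n le_rfl
  rw [Nat.sub_self, Function.iterate_zero, id_eq] at hgw
  set w : ℂ := (f d c)^[n] y with hw
  have hsub : ball w R ⊆ ball w (RR R τ n) := ball_subset_ball (G.RR_gt hR n).le
  have hg : DifferentiableOn ℂ g (ball w R) := hg0.mono hsub
  have hgn : ∀ x ∈ ball w R, (f d c)^[n] (g x) = x := fun x hx => hgn0 x (hsub hx)
  have hu : Univ g w R := univ_branch hg hgn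
  have hww : w ∈ ball w R := mem_ball_self hR
  have hD1 := branch_deriv hg hgn hww
  rw [hgw] at hD1
  set D : ℝ := ‖deriv ((f d c)^[n]) y‖ with hD
  have hD0 : 0 < D := by
    rcases (norm_nonneg (deriv ((f d c)^[n]) y)).eq_or_lt with h | h
    · rw [hD, ← h, zero_mul] at hD1
      exact absurd hD1 (by norm_num)
    · exact h
  have hgD : ‖deriv g w‖ = 1 / D := by
    rw [eq_div_iff hD0.ne']
    linarith
  refine ⟨hD0, ?_⟩
  -- the image of the ball
  set ρ : ℝ := c0 * R / D with hρ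
  have hρ0 : 0 < ρ := by positivity
  have himg : ∀ v ∈ ball y ρ, ∃ x ∈ ball w R, g x = v := by
    intro v hv
    by_contra hcon
    push Not at hcon
    have h1 := K.komit g w R hR hu v hcon
    rw [hgw, hgD] at h1
    rw [mem_ball, dist_eq_norm, norm_sub_rev] at hv
    have h2 : c0 * R * (1 / D) = ρ := by rw [hρ]; ring
    linarith
  have hb : ∀ v ∈ ball y ρ, ‖(f d c)^[n] v - w‖ ≤ R := by
    intro v hv
    obtain ⟨x, hx, rfl⟩ := himg v hv
    rw [hgn x hx]
    rw [mem_ball, dist_eq_norm] at hx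
    exact hx.le
  have hF := differentiable_fn d c n
  -- the condition for the smaller radius
  have hrad : ∀ y' : ℂ, K₁ * (D * ‖y' - y‖) ≤ R → ‖y' - y‖ ≤ ρ / 4 := by
    intro y' hy'
    have h1 : 512 / c0 ^ 2 * (D * ‖y' - y‖) ≤ R :=
      (mul_le_mul_of_nonneg_right hK1a (by positivity)).trans hy'
    have h2 : 512 * (D * ‖y' - y‖) ≤ R * c0 ^ 2 := by
      rw [div_mul_eq_mul_div, div_le_iff₀ (by positivity)] at h1
      exact h1
    rw [hρ, div_div, le_div_iff₀ (by positivity)]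
    have h3 : R * c0 ^ 2 ≤ R * c0 := by
      have : c0 ^ 2 ≤ c0 := by nlinarith
      exact mul_le_mul_of_nonneg_left this hR.le
    nlinarith [mul_nonneg hD0.le (norm_nonneg (y' - y))]
  have hdist : ∀ y' : ℂ, K₁ * (D * ‖y' - y‖) ≤ R →
      ‖deriv ((f d c)^[n]) y' - deriv ((f d c)^[n]) y‖ ≤ 1 / 32 * D := by
    intro y' hy'
    refine (cauchy2 hF hR hρ0 hb (hrad y' hy')).trans ?_
    have h1 : 512 / c0 ^ 2 * (D * ‖y' - y‖) ≤ R :=
      (mul_le_mul_of_nonneg_right hK1a (by positivity)).trans hy'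
    have h2 : 512 * (D * ‖y' - y‖) ≤ R * c0 ^ 2 := by
      rw [div_mul_eq_mul_div, div_le_iff₀ (by positivity)] at h1
      exact h1
    have h3 : 16 * R / ρ ^ 2 * ‖y' - y‖ = (16 * (D * ‖y' - y‖)) * D / (R * c0 ^ 2) := by
      rw [hρ]
      field_simp
    rw [h3, div_le_iff₀ (by positivity)]
    have h4 := mul_le_mul_of_nonneg_right h2 hD0.le
    linarith
  intro y' hy'
  refine ⟨hdist y' hy', ?_⟩
  -- the displacement of the image
  have hdisp : ‖(f d c)^[n] y' - w‖ ≤ 2 * D * ‖y' - y‖ := by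
    refine (convex_closedBall y ‖y' - y‖).norm_image_sub_le_of_norm_deriv_le (𝕜 := ℂ)
      (f := (f d c)^[n]) (fun v _ => hF v) (fun v hv => ?_)
      (mem_closedBall_self (norm_nonneg _)) ?_
    · rw [mem_closedBall, dist_eq_norm] at hv
      have h1 : K₁ * (D * ‖v - y‖) ≤ R := by
        refine le_trans ?_ hy'
        have : 0 ≤ K₁ := by linarith
        gcongr
      have h2 := hdist v h1
      calc ‖deriv ((f d c)^[n]) v‖
          = ‖(deriv ((f d c)^[n]) v - deriv ((f d c)^[n]) y) + deriv ((f d c)^[n]) y‖ := by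
            rw [sub_add_cancel]
        _ ≤ ‖deriv ((f d c)^[n]) v - deriv ((f d c)^[n]) y‖ + D := norm_add_le _ _
        _ ≤ 2 * D := by linarith
    · rw [mem_closedBall, dist_eq_norm]
  have hy'b : y' ∈ ball y ρ := by
    rw [mem_ball, dist_eq_norm]
    have := hrad y' hy'
    linarith
  obtain ⟨x, hx, hxy⟩ := himg y' hy'b
  have hxF : (f d c)^[n] y' = x := by rw [← hxy]; exact hgn x hx
  rw [hxF] at hdisp
  have hx4 : ‖x - w‖ ≤ R / 4 := by
    have h1 : 8 * (D * ‖y' - y‖) ≤ R :=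
      (mul_le_mul_of_nonneg_right hK1c (by positivity)).trans hy'
    linarith
  intro j hj
  have hh : DifferentiableOn ℂ (fun x => (f d c)^[j] (g x)) (ball w R) :=
    (differentiable_fn d c j).comp_differentiableOn hg
  have hhn : ∀ x ∈ ball w R, (f d c)^[n - j] ((fun x => (f d c)^[j] (g x)) x) = x := by
    intro x hx
    show (f d c)^[n - j] ((f d c)^[j] (g x)) = x
    rw [← Function.iterate_add_apply, Nat.sub_add_cancel hj]
    exact hgn x hx
  have hu' : Univ (fun x => (f d c)^[j] (g x)) w R := univ_branch hh hhn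
  have h1 := branch_deriv hh hhn hww
  have h2 := K.lip hR hu' hx4
  simp only [hgw, hxy] at h1 h2
  set E : ℝ := ‖deriv ((f d c)^[n - j]) ((f d c)^[j] y)‖ with hE
  set H : ℝ := ‖deriv (fun x => (f d c)^[j] (g x)) w‖ with hH
  have hE0 : 0 ≤ E := norm_nonneg _
  calc ‖(f d c)^[j] y' - (f d c)^[j] y‖ * E ≤ (C0 * H * ‖x - w‖) * E :=
        mul_le_mul_of_nonneg_right h2 hE0
    _ = C0 * ‖x - w‖ * (E * H) := by ring
    _ = C0 * ‖x - w‖ := by rw [h1, mul_one]
    _ ≤ C0 * (2 * D * ‖y' - y‖) := by gcongr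
    _ = 2 * C0 * (D * ‖y' - y‖) := by ring
    _ ≤ K₁ * (D * ‖y' - y‖) := mul_le_mul_of_nonneg_right hK1b (by positivity)

end Pool.Agent.Y925.CA.Br
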